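import Pool.Agent.QCC.Fin

/-!
# MP_3c5a12_nt, Q1

For every odd `d >= 5` and every positive `n` congruent to `-1` modulo `d`, the truncated sum
`S_d(n)` is divisible by the cube of the cyclotomic polynomial `Phi_n(q)`.
-/

open Finset Polynomial

namespace Pool.Agent.Results.MP_3c5a12_nt.CubeMinusOne

/-- Q1: for odd `d >= 5` and `n = -1` modulo `d`, in the field of rational functions
`S_d(n) = Phi_n^3 A / B` with integer polynomials `A`, `B` and `Phi_n` not dividing `B`. -/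
theorem result (d n : ℕ) (hodd : Odd d) (hd : 5 ≤ d) (hn : 0 < n) (hmod : (n : ℤ) ≡ -1 [ZMOD d]) :
    ∃ A B : ℤ[X], ¬ cyclotomic n ℤ ∣ B ∧
      ∑ k ∈ range n, (1 - (RatFunc.X : RatFunc ℚ) ^ (2 * d * k + 1)) / (1 - RatFunc.X) *
        ((∏ j ∈ range k, (1 - (RatFunc.X : RatFunc ℚ) * (RatFunc.X ^ d) ^ j)) /
          ∏ j ∈ range k, (1 - (RatFunc.X : RatFunc ℚ) ^ d * (RatFunc.X ^ d) ^ j)) ^ d *
        (RatFunc.X : RatFunc ℚ) ^ (d * (d - 3) * k / 2) =
      algebraMap ℚ[X] (RatFunc ℚ) ((cyclotomic n ℤ ^ 3 * A).map (Int.castRingHom ℚ)) /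
        algebraMap ℚ[X] (RatFunc ℚ) (B.map (Int.castRingHom ℚ)) := by
  have hdvd : (d : ℤ) ∣ (n : ℤ) + 1 := by
    have := Int.ModEq.dvd hmod.symm
    simpa using this
  have hdvd' : d ∣ n + 1 := by exact_mod_cast hdvd
  obtain ⟨l, hl⟩ := hdvd'
  obtain ⟨f, hf⟩ := hodd
  have hl1 : 1 ≤ l := by
    rcases Nat.eq_zero_or_pos l with h | h
    · subst h; simp at hl
    · exact h
  have hn2 : 2 ≤ n := by
    have : d * 1 ≤ d * l := Nat.mul_le_mul_left d hl1
    omega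
  have hc : Nat.Coprime n d := by
    have h1 : Nat.gcd n d ∣ n + 1 := hl ▸ (Nat.gcd_dvd_right n d).trans (dvd_mul_right d l)
    have h2 : Nat.gcd n d ∣ 1 := (Nat.dvd_add_right (Nat.gcd_dvd_left n d)).mp h1
    exact Nat.dvd_one.mp h2
  obtain ⟨A, hA⟩ := QCC.cyclotomic_cube_dvd (d := d) (e := f - 1) (l := l) (n := n) (by omega) hl1
    (by omega) hl
  refine ⟨A, QCC.DD d n, QCC.not_dvd_DD hn2 hc, ?_⟩
  have hq : ∀ m, 0 < m → (RatFunc.X : RatFunc ℚ) ^ m ≠ 1 := by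
    intro m hm h
    rw [← RatFunc.algebraMap_X, ← map_pow, ← map_one (algebraMap ℚ[X] (RatFunc ℚ))] at h
    have h1 := IsFractionRing.injective ℚ[X] (RatFunc ℚ) h
    have h2 := congrArg natDegree h1
    rw [natDegree_X_pow, natDegree_one] at h2
    omega
  have key := QCC.sum_eq (RatFunc.X : RatFunc ℚ) hq (d := d) (n := n) (by omega)
  have hPP : algebraMap ℚ[X] (RatFunc ℚ) ((QCC.PP d n).map (Int.castRingHom ℚ)) =
      ∑ k ∈ range n, (1 - (RatFunc.X : RatFunc ℚ) ^ (2 * d * k + 1)) *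
        ((∏ j ∈ range k, (1 - (RatFunc.X : RatFunc ℚ) * (RatFunc.X ^ d) ^ j)) *
          ∏ j ∈ Ico (k + 1) n, (1 - ((RatFunc.X : RatFunc ℚ) ^ d) ^ j)) ^ d *
        (RatFunc.X : RatFunc ℚ) ^ (d * (d - 3) * k / 2) := by
    rw [QCC.PP]
    simp only [Polynomial.map_sum, Polynomial.map_mul, Polynomial.map_sub, Polynomial.map_one,
      Polynomial.map_pow, Polynomial.map_prod, Polynomial.map_X, map_sum, map_mul, map_sub, map_one,
      map_pow, map_prod, RatFunc.algebraMap_X]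
  have hDD : algebraMap ℚ[X] (RatFunc ℚ) ((QCC.DD d n).map (Int.castRingHom ℚ)) =
      (1 - RatFunc.X) * (∏ j ∈ Ico 1 n, (1 - ((RatFunc.X : RatFunc ℚ) ^ d) ^ j)) ^ d := by
    rw [QCC.DD]
    simp only [Polynomial.map_mul, Polynomial.map_sub, Polynomial.map_one,
      Polynomial.map_pow, Polynomial.map_prod, Polynomial.map_X, map_mul, map_sub, map_one,
      map_pow, map_prod, RatFunc.algebraMap_X]
  have hDD0 : algebraMap ℚ[X] (RatFunc ℚ) ((QCC.DD d n).map (Int.castRingHom ℚ)) ≠ 0 := by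
    rw [Ne, map_eq_zero_iff _ (IsFractionRing.injective ℚ[X] (RatFunc ℚ)),
      Polynomial.map_eq_zero_iff (RingHom.injective_int _)]
    intro h0
    exact QCC.not_dvd_DD hn2 hc (h0 ▸ dvd_zero _)
  rw [eq_div_iff hDD0, hDD, key, ← hPP, hA]

end Pool.Agent.Results.MP_3c5a12_nt.CubeMinusOne
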